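import Mathlib

/-!
# K4, block C: a multiplicative relation between the eigenvalues of two matrices which are conjugate or dual up to a scalar
-/

set_option autoImplicit false

open Matrix Polynomial

namespace Pool.Agent.Helper35.K4

variable {n K : Type} [Fintype n] [DecidableEq n] [Field K]

/-- the same monic polynomial, the same roots up to a permutation -/
theorem perm_of_prod {a b : n → K} (h : ∏ k, (X - C (a k)) = ∏ k, (X - C (b k))) : ∃ π : Equiv.Perm n, ∀ k, a k = b (π k) := by
  classical
  have hr : ∀ c : n → K, (∏ k, (X - C (c k))).roots = Finset.univ.val.map c := by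
    intro c
    have e : ∏ k, (X - C (c k)) = ((Finset.univ.val.map c).map fun y => X - C y).prod := by
      rw [Multiset.map_map]
      rfl
    rw [e, Polynomial.roots_multiset_prod_X_sub_C]
  have h1 : Finset.univ.val.map a = Finset.univ.val.map b := by
    rw [← hr a, ← hr b, h]
  have h2 : ∀ y : K, Fintype.card {k // a k = y} = Fintype.card {k // b k = y} := by
    intro y
    have h3 := congrArg (Multiset.count y) h1
    rw [Multiset.count_map, Multiset.count_map] at h3
    rw [Fintype.card_subtype, Fintype.card_subtype]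
    have e : ∀ c : n → K, (Finset.univ.filter fun k => c k = y).card = Multiset.card (Multiset.filter (fun k => y = c k) Finset.univ.val) := by
      intro c
      have : (Finset.univ.filter fun k => c k = y) = Finset.univ.filter fun k => y = c k := by
        ext k
        simp [eq_comm]
      rw [this]
      rfl
    rw [e, e]
    exact h3
  refine ⟨(Equiv.sigmaFiberEquiv a).symm.trans ((Equiv.sigmaCongrRight fun y => Fintype.equivOfCardEq (h2 y)).trans (Equiv.sigmaFiberEquiv b)),
    fun k => ?_⟩
  simp only [Equiv.trans_apply]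
  have := ((Fintype.equivOfCardEq (h2 (a k))) ⟨k, rfl⟩).2
  exact this.symm

/-- the determinant of a linear combination of `1` and `A` -/
theorem det_lin {A : Matrix n n K} {u : n → K} (hu : A.charpoly = ∏ k, (X - C (u k))) (s t : K) :
    (t • (1 : Matrix n n K) - s • A).det = ∏ k, (t - s * u k) := by
  by_cases hs : s = 0
  · subst hs
    simp [Matrix.det_smul]
  · have e : t • (1 : Matrix n n K) - s • A = s • (Matrix.scalar n (t / s) - A) := by
      rw [smul_sub]
      congr 1
      ext i j
      simp only [Matrix.smul_apply, Matrix.scalar_apply, Matrix.diagonal_apply, Matrix.one_apply, smul_eq_mul]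
      split_ifs
      · field_simp
      · simp
    rw [e, Matrix.det_smul, ← Matrix.eval_charpoly, hu, Polynomial.eval_prod, ← Finset.card_univ, ← Finset.prod_const, ← Finset.prod_mul_distrib]
    refine Finset.prod_congr rfl fun k _ => ?_
    simp only [eval_sub, eval_X, eval_C]
    field_simp

/-- conjugate matrices -/
theorem eig_conj [Infinite K] {A B T : Matrix n n K} (hT : IsUnit T.det) {l : K} (h : B * T = l • (T * A)) {u v : n → K}
    (hu : A.charpoly = ∏ k, (X - C (u k))) (hv : B.charpoly = ∏ k, (X - C (v k))) : ∃ π : Equiv.Perm n, ∀ k, v k = l * u (π k) := by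
  refine perm_of_prod (b := fun k => l * u k) (Polynomial.funext fun t => ?_)
  rw [← hv, Matrix.eval_charpoly, Polynomial.eval_prod]
  simp only [eval_sub, eval_X, eval_C]
  rw [← det_lin hu l t]
  have h1 : (Matrix.scalar n t - B) * T = T * (t • (1 : Matrix n n K) - l • A) := by
    rw [sub_mul, mul_sub, h, Matrix.mul_smul, Matrix.mul_smul, mul_one, Matrix.scalar_apply, ← Matrix.smul_one_eq_diagonal, Matrix.smul_mul, one_mul]
  have h2 := congrArg Matrix.det h1
  rw [Matrix.det_mul, Matrix.det_mul, mul_comm] at h2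
  exact mul_left_cancel₀ hT.ne_zero h2

/-- dual matrices -/
theorem eig_dual [Infinite K] {A A' B T : Matrix n n K} (hT : IsUnit T.det) (hA : A * A' = 1) {l : K} (h : Bᵀ * T = l • (T * A')) {u v : n → K}
    (hu : A.charpoly = ∏ k, (X - C (u k))) (hv : B.charpoly = ∏ k, (X - C (v k))) (h0 : ∀ k, u k ≠ 0) :
    ∃ π : Equiv.Perm n, ∀ k, v k = l * (u (π k))⁻¹ := by
  refine perm_of_prod (b := fun k => l * (u k)⁻¹) (Polynomial.funext fun t => ?_)
  have hvT : Bᵀ.charpoly = ∏ k, (X - C (v k)) := by rw [Matrix.charpoly_transpose, hv]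
  rw [← hvT, Matrix.eval_charpoly, Polynomial.eval_prod]
  simp only [eval_sub, eval_X, eval_C]
  have h1 : (Matrix.scalar n t - Bᵀ) * T = T * (t • (1 : Matrix n n K) - l • A') := by
    rw [sub_mul, mul_sub, h, Matrix.mul_smul, Matrix.mul_smul, mul_one, Matrix.scalar_apply, ← Matrix.smul_one_eq_diagonal, Matrix.smul_mul, one_mul]
  have h2 := congrArg Matrix.det h1
  rw [Matrix.det_mul, Matrix.det_mul, mul_comm] at h2
  have h3 := mul_left_cancel₀ hT.ne_zero h2
  rw [h3]
  have hdet : A.det = ∏ k, u k := by
    have h4 := det_lin hu (-1) 0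
    simp only [zero_smul, neg_smul, one_smul, sub_neg_eq_add, zero_add, neg_mul, one_mul] at h4
    exact h4
  have hdet0 : A.det ≠ 0 := by
    rw [hdet]
    exact Finset.prod_ne_zero_iff.2 fun k _ => h0 k
  apply mul_left_cancel₀ hdet0
  rw [← Matrix.det_mul, mul_sub, Matrix.mul_smul, Matrix.mul_smul, mul_one, hA]
  have e : t • A - l • (1 : Matrix n n K) = (-1 : K) • (l • (1 : Matrix n n K) - t • A) := by
    rw [neg_smul, one_smul, neg_sub]
  rw [e, Matrix.det_smul, det_lin hu t l, hdet, ← Finset.card_univ, ← Finset.prod_const, ← Finset.prod_mul_distrib, ← Finset.prod_mul_distrib]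
  refine Finset.prod_congr rfl fun k _ => ?_
  have := h0 k
  field_simp
  ring

/-- the exponents `1` at `a`, `-1` at `a'` -/
def ex (a a' k : n) : ℤ := if k = a then 1 else if k = a' then -1 else 0

theorem prod_ex {a a' : n} (h : a ≠ a') (v : n → K) : ∏ k, v k ^ ex a a' k = v a * (v a')⁻¹ := by
  rw [Finset.prod_eq_mul a a' h]
  · simp [ex, h.symm]
  · intro c _ hc
    simp [ex, hc.1, hc.2]
  · intro hh
    exact absurd (Finset.mem_univ _) hh
  · intro hh
    exact absurd (Finset.mem_univ _) hh

theorem one_of_ex {a a' k : n} (h : ex a a' k = 1) : k = a := by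
  unfold ex at h
  by_contra hk
  rw [if_neg hk] at h
  by_cases h2 : k = a'
  · rw [if_pos h2] at h
    norm_num at h
  · rw [if_neg h2] at h
    norm_num at h

/-- a relation between four eigenvalues -/
theorem rel4 {ι : Type} [Fintype ι] [DecidableEq ι] {i j : ι} (hij : i ≠ j) {u : ι → n → K} (h0 : ∀ x k, u x k ≠ 0) {a a' b b' : n} (ha : a ≠ a')
    (hb : b ≠ b') (h : u j a * u i b = u j a' * u i b') :
    ∃ m : ι → n → ℤ, ∏ x, ∏ k, u x k ^ m x k = 1 ∧ (∀ x, x ≠ i → x ≠ j → ∀ k, m x k = 0) ∧
      (∃ x k, m x k = 1) ∧ (Finset.univ.filter fun p : n × ι => m p.2 p.1 = 1).card ≤ 2 := by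
  refine ⟨fun x => if x = j then ex a a' else if x = i then ex b b' else 0, ?_, ?_, ?_, ?_⟩
  · rw [Finset.prod_eq_mul j i hij.symm]
    · beta_reduce
      rw [if_pos rfl, if_neg hij, if_pos rfl, prod_ex ha, prod_ex hb]
      have h1 := h0 j a'
      have h2 := h0 i b'
      field_simp
      exact h
    · intro c _ hc
      beta_reduce
      rw [if_neg hc.1, if_neg hc.2]
      simp
    · intro hh
      exact absurd (Finset.mem_univ _) hh
    · intro hh
      exact absurd (Finset.mem_univ _) hh
  · intro x hi hj k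
    simp only [if_neg hj, if_neg hi]
    rfl
  · refine ⟨j, a, ?_⟩
    simp [ex]
  · have hsub : (Finset.univ.filter fun p : n × ι => (if p.2 = j then ex a a' else if p.2 = i then ex b b' else 0) p.1 = 1) ⊆ {(a, j), (b, i)} := by
      rintro ⟨k, x⟩ hp
      rw [Finset.mem_filter] at hp
      have h1 := hp.2
      simp only at h1
      rw [Finset.mem_insert, Finset.mem_singleton]
      by_cases hj : x = j
      · left
        rw [if_pos hj] at h1
        have h2 := one_of_ex h1
        rw [h2, hj]
      · rw [if_neg hj] at h1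
        by_cases hi : x = i
        · right
          rw [if_pos hi] at h1
          have h2 := one_of_ex h1
          rw [h2, hi]
        · rw [if_neg hi] at h1
          simp at h1
    exact (Finset.card_le_card hsub).trans (Finset.card_le_two)

/-- **C, the core**: a relation from a conjugation or a duality, up to a scalar -/
theorem rel_of_conj {ι : Type} [Fintype ι] [DecidableEq ι] [Infinite K] (hn : 1 < Fintype.card n) {i j : ι} (hij : i ≠ j) {A : ι → Matrix n n K}
    {A' T : Matrix n n K} (hdet : ∀ x, IsUnit (A x).det) (hA : A i * A' = 1) (hT : IsUnit T.det)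
    (h : (∃ l : K, l ≠ 0 ∧ A j * T = l • (T * A i)) ∨ ∃ l : K, l ≠ 0 ∧ (A j)ᵀ * T = l • (T * A')) {u : ι → n → K}
    (hu : ∀ x, (A x).charpoly = ∏ k, (X - C (u x k))) :
    ∃ m : ι → n → ℤ, ∏ x, ∏ k, u x k ^ m x k = 1 ∧ (∀ x, x ≠ i → x ≠ j → ∀ k, m x k = 0) ∧
      (∃ x k, m x k = 1) ∧ (Finset.univ.filter fun p : n × ι => m p.2 p.1 = 1).card ≤ 2 := by
  have h0 : ∀ x k, u x k ≠ 0 := by
    intro x k hk
    have h4 := det_lin (hu x) (-1) 0
    simp only [zero_smul, neg_smul, one_smul, sub_neg_eq_add, zero_add, neg_mul, one_mul] at h4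
    have h5 : (A x).det = 0 := by
      rw [h4]
      exact Finset.prod_eq_zero (Finset.mem_univ k) hk
    exact (hdet x).ne_zero h5
  obtain ⟨a, a', ha⟩ := Fintype.exists_pair_of_one_lt_card hn
  rcases h with ⟨l, hl, h⟩ | ⟨l, hl, h⟩
  · obtain ⟨π, hπ⟩ := eig_conj hT h (hu i) (hu j)
    refine rel4 hij h0 (b := π a') (b' := π a) ha (fun h => ha (π.injective h).symm) ?_
    rw [hπ a, hπ a']
    ring
  · obtain ⟨π, hπ⟩ := eig_dual hT hA h (hu i) (hu j) (h0 i)
    refine rel4 hij h0 (b := π a) (b' := π a') ha (fun h => ha (π.injective h)) ?_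
    rw [hπ a, hπ a', mul_assoc, mul_assoc, inv_mul_cancel₀ (h0 i _), inv_mul_cancel₀ (h0 i _)]

end Pool.Agent.Helper35.K4
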