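import Pool.Agent.Helper9.K4.A1
import Pool.Agent.Helper35.K4.Rel

/-!
# K4, block C: a link gives a relation between the eigenvalues
-/

set_option autoImplicit false

open Matrix H77MT Pool.Agent.Helper79.KN

namespace Pool.Agent.Helper35.K4

open Pool.Agent.Helper61.K4

variable {Γ X n K : Type} [Group Γ] [DecidableEq X] [Fintype X] [Fintype n] [DecidableEq n] [Field K]

/-- C (a relation from a link): by A1 `u_jk = l u_iπ(k)` or `u_jk u_iπ(k) = l`; the relation `u_jk u_iπ(k') = u_jk' u_iπ(k)`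
(`u_jk u_iπ(k) = u_jk' u_iπ(k')`) has the exponent `1` exactly twice -/
theorem rel_of_link [CharZero K] [IsAlgClosed K] {ρ : Rep Γ X n K} (h4 : 4 < Fintype.card n) {Δ : Subgroup Γ}
    (hn : Δ.Normal) {i j : X} (hij : i ≠ j) (hb : ∀ c : Matrix n n K, c.trace = 0 → ∃ a ∈ fam ρ Δ, a i = c)
    (h : IsLink (fam ρ Δ) i j) {γ : Γ} {u : X → n → K}
    (hu : ∀ x, (ρ x γ : Matrix n n K).charpoly = ∏ k, (Polynomial.X - Polynomial.C (u x k))) :
    ∃ m : X → n → ℤ, ∏ x, ∏ k, u x k ^ m x k = 1 ∧ (∀ x, x ≠ i → x ≠ j → ∀ k, m x k = 0) ∧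
      (∃ x k, m x k = 1) ∧ (Finset.univ.filter fun p : n × X => m p.2 p.1 = 1).card ≤ 2 := by
  haveI : Infinite K := IsAlgClosed.instInfinite
  obtain ⟨T, hT, h1⟩ := Pool.Agent.Helper9.K4.link_group hn (by omega) hb h
  refine rel_of_conj (A := fun x => (ρ x γ : Matrix n n K)) (A' := (ρ i γ⁻¹ : Matrix n n K)) (T := T) (by omega) hij
    (fun x => (Matrix.isUnit_iff_isUnit_det _).1 (ρ x γ).isUnit) ?_ hT ?_ hu
  · rw [map_inv]
    exact Units.mul_inv _
  · rcases h1 with h1 | h1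
    · exact Or.inl (h1 γ)
    · exact Or.inr (h1 γ)

end Pool.Agent.Helper35.K4
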